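import Pool.Agent.Helper26.DNL.Field

/-!
MP_b6a655_nt: the lower bound: if `p` is odd and `P` has a noncentral element of order `p`, then
`n + 1/p` is the conductor of a `P`-extension of `k((t))` for all large `n` with `p ∤ n (n + 1)`.
-/

set_option autoImplicit false

namespace Pool.Agent.Helper26.DNL

open Pool.Agent.Helper21.DN

universe u

/-- the elementary abelian normal subgroup -/
theorem low_beta (p : ℕ) [hp : Fact p.Prime] (j : ℕ) (P : Type) [Group P] (e : P)
    (ζ : Multiplicative (Fin j → ZMod p) →* P) (χ : P → Fin j → ZMod p) (D : LowD p j P e ζ χ) :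
    ∃ β : Multiplicative (Fin (j + 1) → ZMod p) →* P, Function.Injective β ∧
      ∀ (x : P) (u : Fin (j + 1) → ZMod p), x * β (Multiplicative.ofAdd u) * x⁻¹ =
        β (Multiplicative.ofAdd ((lowA (χ x)).mulVec u)) := by
  have hcz : ∀ (g : P) u, g * ζ u = ζ u * g := fun g u =>
    Subgroup.mem_center_iff.mp (D.cen u) g
  have hval : ∀ a b : ZMod p, e ^ (a + b).val = e ^ a.val * e ^ b.val := by
    intro a b
    rw [← pow_add, ZMod.val_add]
    exact (pow_eq_pow_mod _ D.ep).symm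
  let β : Multiplicative (Fin (j + 1) → ZMod p) →* P := MonoidHom.mk'
    (fun u => e ^ (Multiplicative.toAdd u 0).val *
      ζ (Multiplicative.ofAdd fun i => Multiplicative.toAdd u i.succ)) (by
    intro a b
    have h1 : (Multiplicative.ofAdd fun i : Fin j => Multiplicative.toAdd (a * b) i.succ) =
        (Multiplicative.ofAdd fun i : Fin j => Multiplicative.toAdd a i.succ) *
        (Multiplicative.ofAdd fun i : Fin j => Multiplicative.toAdd b i.succ) := rfl
    rw [h1, toAdd_mul, Pi.add_apply, hval, map_mul ζ]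
    have h2 := hcz (e ^ (Multiplicative.toAdd b 0).val)
      (Multiplicative.ofAdd fun i : Fin j => Multiplicative.toAdd a i.succ)
    rw [mul_assoc, ← mul_assoc (e ^ (Multiplicative.toAdd b 0).val), h2]
    simp only [mul_assoc])
  have hβ : ∀ u : Fin (j + 1) → ZMod p, β (Multiplicative.ofAdd u) =
      e ^ (u 0).val * ζ (Multiplicative.ofAdd fun i => u i.succ) := fun u => rfl
  refine ⟨β, ?_, ?_⟩
  · rw [injective_iff_map_eq_one]
    intro a ha
    obtain ⟨u, rfl⟩ := Multiplicative.ofAdd.surjective a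
    rw [hβ] at ha
    have hcen : e ^ (u 0).val ∈ Subgroup.center P := by
      have h1 : e ^ (u 0).val = (ζ (Multiplicative.ofAdd fun i => u i.succ))⁻¹ :=
        eq_inv_of_mul_eq_one_left ha
      rw [h1]
      exact Subgroup.inv_mem _ (D.cen _)
    have hu0 : u 0 = 0 := by
      by_contra hne
      apply D.ne
      have h2 : (e ^ (u 0).val) ^ ((u 0)⁻¹).val = e := by
        rw [← pow_mul, pow_eq_pow_mod _ D.ep, ← ZMod.val_mul, mul_inv_cancel₀ hne, ZMod.val_one,
          pow_one]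
      rw [← h2]
      exact Subgroup.pow_mem _ hcen _
    rw [hu0, ZMod.val_zero, pow_zero, one_mul] at ha
    have h3 := D.inj (ha.trans (map_one ζ).symm)
    have h4 : (fun i : Fin j => u i.succ) = 0 := by
      have := congrArg Multiplicative.toAdd h3
      exact this
    have h5 : u = 0 := by
      funext i
      refine Fin.cases hu0 (fun i => ?_) i
      exact congrFun h4 i
    rw [h5]; rfl
  · intro x u
    rw [hβ, hβ, lowA_mulVec]
    have h1 : x * e ^ (u 0).val * x⁻¹ =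
        ζ (Multiplicative.ofAdd fun i => χ x i * u 0) * e ^ (u 0).val := by
      rw [← conj_pow, D.conj]
      have hcomm : Commute (ζ (Multiplicative.ofAdd (χ x))) e := (hcz e _).symm
      rw [hcomm.mul_pow, ← map_pow]
      congr 2
      apply Multiplicative.toAdd.injective
      rw [toAdd_pow, toAdd_ofAdd, toAdd_ofAdd]
      funext i
      rw [Pi.smul_apply, nsmul_eq_mul, ZMod.natCast_zmod_val, mul_comm]
    have h2 : (u + fun i => lowc (χ x) i * u 0) 0 = u 0 := by
      rw [Pi.add_apply]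
      have h0 : lowc (χ x) 0 = 0 := rfl
      rw [h0, zero_mul, add_zero]
    have h3 : (Multiplicative.ofAdd fun i : Fin j => (u + fun i => lowc (χ x) i * u 0) i.succ) =
        (Multiplicative.ofAdd fun i => χ x i * u 0) * (Multiplicative.ofAdd fun i => u i.succ) := by
      rw [← ofAdd_add]
      congr 1
      funext i
      rw [Pi.add_apply, Pi.add_apply, add_comm]
      rfl
    rw [h2, h3, map_mul]
    calc x * (e ^ (u 0).val * ζ (Multiplicative.ofAdd fun i => u i.succ)) * x⁻¹ =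
        x * e ^ (u 0).val * (ζ (Multiplicative.ofAdd fun i => u i.succ) * x⁻¹) := by
          simp only [mul_assoc]
      _ = x * e ^ (u 0).val * x⁻¹ * ζ (Multiplicative.ofAdd fun i => u i.succ) := by
          rw [← hcz]; simp only [mul_assoc]
      _ = ζ (Multiplicative.ofAdd fun i => χ x i * u 0) * e ^ (u 0).val *
          ζ (Multiplicative.ofAdd fun i => u i.succ) := by rw [h1]
      _ = e ^ (u 0).val * (ζ (Multiplicative.ofAdd fun i => χ x i * u 0) *
          ζ (Multiplicative.ofAdd fun i => u i.succ)) := by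
          rw [← hcz]; simp only [mul_assoc]

/-- the value of `c / t` -/
theorem low_val (k : Type u) [Field k] (M : Type u) [Field M] [Algebra (LaurentSeries k) M]
    [FiniteDimensional (LaurentSeries k) M] (c : k) (hc : c ≠ 0) (n : ℕ) :
    val k M (algebraMap (LaurentSeries k) M ((HahnSeries.single (-1 : ℤ) c) ^ n)) =
      ((-((Module.finrank (LaurentSeries k) M : ℤ) * n) : ℤ) : WithTop ℤ) := by
  unfold val
  rw [Algebra.norm_algebraMap, ← pow_mul, HahnSeries.single_pow,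
    HahnSeries.orderTop_single (pow_ne_zero _ hc)]
  congr 1
  simp
  ring

/-- the right hand sides of the Artin-Schreier equations -/
def lowx {k M : Type u} [Field k] [Field M] (κ : k →+* M) {j : ℕ} (ν : Fin j → k) (n : ℕ) (T : M)
    (w : Fin j → M) : Fin (j + 1) → M :=
  Fin.cons (T ^ n) fun i => -(T ^ n * w i + κ (ν i) * T ^ (n + 1) * κ (((n : k) + 1)⁻¹))

theorem lowx_act (p : ℕ) [Fact p.Prime] {k M : Type u} [Field k] [Field M] [CharP M p]
    (κ : k →+* M) {j : ℕ} (ν : Fin j → k) (n : ℕ) (T : M) (w : Fin j → M) (σ : M →+* M)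
    (hσκ : ∀ c, σ (κ c) = κ c) (hT : σ T = T) (u : Fin j → ZMod p)
    (hw : ∀ i, σ (w i) = w i + ((u i).val : M)) (i : Fin (j + 1)) :
    σ (lowx κ ν n T w i) + ((lowc u i).val : M) * lowx κ ν n T w 0 = lowx κ ν n T w i := by
  refine Fin.cases ?_ (fun i => ?_) i
  · have h0 : lowc u 0 = 0 := rfl
    have h1 : lowx κ ν n T w 0 = T ^ n := rfl
    rw [h0, h1, map_pow, hT, ZMod.val_zero, Nat.cast_zero, zero_mul, add_zero]
  · have h0 : lowc u i.succ = u i := rfl
    have h1 : lowx κ ν n T w 0 = T ^ n := rfl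
    have h2 : lowx κ ν n T w i.succ =
      -(T ^ n * w i + κ (ν i) * T ^ (n + 1) * κ (((n : k) + 1)⁻¹)) := rfl
    rw [h0, h1, h2, map_neg, map_add, map_mul, map_mul, map_mul, map_pow, map_pow, hσκ, hσκ, hT,
      hw]
    ring

theorem low_prep (p : ℕ) [Fact p.Prime] (k : Type u) [Field k] [CharP k p] [IsAlgClosed k]
    (j : ℕ) (hj : j ≠ 0) (P : Type) [Group P] [Finite P] (hP : IsPGroup p P)
    (χ : P → Fin j → ZMod p) (hadd : ∀ x y, χ (x * y) = χ x + χ y)
    (hsurj : Function.Surjective χ) :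
    ∃ (ν : Fin j → k) (c0 : ℝ), (∀ ψ : Fin j → ZMod p, ∑ i, ((ψ i).val : k) * ν i = 0 → ψ = 0) ∧
    ∀ n : ℕ, ∃ (M : Type u) (_ : Field M) (_ : Algebra (LaurentSeries k) M)
    (_ : FiniteDimensional (LaurentSeries k) M) (_ : IsGalois (LaurentSeries k) M)
    (v : AddValuation M (WithTop ℤ)) (w : Fin j → M) (y : Fin (j + 1) → M)
    (ρ : (M ≃ₐ[LaurentSeries k] M) →* P),
    (∀ x, v x = val k M x) ∧ Ram (κ0 k) v ∧ IsPGroup p (M ≃ₐ[LaurentSeries k] M) ∧
    Function.Surjective ρ ∧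
    (∀ i, w i ^ p - w i = algebraMap (LaurentSeries k) M (HahnSeries.single (-1) (ν i))) ∧
    (∀ (σ : M ≃ₐ[LaurentSeries k] M) i, σ (w i) = w i + ((χ (ρ σ) i).val : M)) ∧
    (∀ i, y i ^ p - y i = lowx ((algebraMap (LaurentSeries k) M).comp (κ0 k)) ν n
      (algebraMap (LaurentSeries k) M (HahnSeries.single (-1) 1)) w i) ∧
    (∀ σ : M ≃ₐ[LaurentSeries k] M, ρ σ ≠ 1 →
      phi (fun σ : M ≃ₐ[LaurentSeries k] M => s v σ) (s v σ) ≤ c0) := by
  obtain ⟨ν, L, _, _, w0, _, _, i0, hν, hw0, hσ0⟩ := low_L p k j hj P hP χ hadd hsurj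
  obtain ⟨c0, hc0⟩ := all_CL p k L
  refine ⟨ν, c0, hν, ?_⟩
  intro n
  have hKp : CharP (LaurentSeries k) p := prep_char p k
  have hLp : CharP L p :=
    charP_of_injective_algebraMap (algebraMap (LaurentSeries k) L).injective p
  have hχ1 : χ 1 = 0 := by
    have := hadd 1 1
    rw [mul_one] at this
    exact left_eq_add.mp this
  have hχi : ∀ x, χ x⁻¹ = - χ x := by
    intro x
    have := hadd x⁻¹ x
    rw [inv_mul_cancel, hχ1] at this
    exact eq_neg_of_add_eq_zero_left this.symm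
  have hz : ∀ (a : ZMod p), ((a.val : ℕ) : L) = ZMod.castHom (dvd_refl p) L a := fun a => by
    rw [ZMod.castHom_apply, ZMod.natCast_val]
  have hPL : IsPGroup p (L ≃ₐ[LaurentSeries k] L) := hP.of_equiv i0.symm
  obtain ⟨M, _, _, _, _, _, _, y, hPM, hy⟩ := all_TWM p (LaurentSeries k) L hPL (j + 1)
    (lowx ((algebraMap (LaurentSeries k) L).comp (κ0 k)) ν n
      (algebraMap (LaurentSeries k) L (HahnSeries.single (-1) 1)) w0) (by
    intro σ
    refine ⟨lowA (χ (i0 σ)⁻¹), ?_⟩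
    intro i
    rw [lowA_sum]
    have h := lowx_act p ((algebraMap (LaurentSeries k) L).comp (κ0 k)) ν n
      (algebraMap (LaurentSeries k) L (HahnSeries.single (-1) 1)) w0 (σ : L →+* L)
      (fun c => σ.commutes _) (σ.commutes _) (χ (i0 σ)) (fun i => hσ0 σ i) i
    have h2 : ((lowc (χ (i0 σ)⁻¹) i).val : L) = - ((lowc (χ (i0 σ)) i).val : L) := by
      rw [hz, hz, ← map_neg]
      congr 1
      rw [hχi]
      refine Fin.cases ?_ (fun i => ?_) i
      · simp [lowc]
      · simp [lowc]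
    rw [h2, ← sub_eq_zero]
    have h3 : σ (lowx ((algebraMap (LaurentSeries k) L).comp (κ0 k)) ν n
      (algebraMap (LaurentSeries k) L (HahnSeries.single (-1) 1)) w0 i) =
      (σ : L →+* L) (lowx ((algebraMap (LaurentSeries k) L).comp (κ0 k)) ν n
      (algebraMap (LaurentSeries k) L (HahnSeries.single (-1) 1)) w0 i) := rfl
    rw [h3]
    linear_combination h)
  obtain ⟨v, hv, hRam⟩ := all_RAM k M
  obtain ⟨ρ, hρ⟩ : ∃ ρ : (M ≃ₐ[LaurentSeries k] M) →* P,
      ∀ σ, ρ σ = i0 (AlgEquiv.restrictNormalHom L σ) :=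
    ⟨(i0 : (L ≃ₐ[LaurentSeries k] L) →* P).comp (AlgEquiv.restrictNormalHom L), fun σ => rfl⟩
  have hres : ∀ (σ : M ≃ₐ[LaurentSeries k] M) (a : L),
      algebraMap L M (AlgEquiv.restrictNormalHom L σ a) = σ (algebraMap L M a) := by
    intro σ a
    exact AlgEquiv.restrictNormal_commutes σ L a
  have hmap : ∀ a : LaurentSeries k, algebraMap L M (algebraMap (LaurentSeries k) L a) =
      algebraMap (LaurentSeries k) M a := by
    intro a
    exact (IsScalarTower.algebraMap_apply (LaurentSeries k) L M a).symm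
  refine ⟨M, inferInstance, inferInstance, inferInstance, inferInstance, v,
    fun i => algebraMap L M (w0 i), y, ρ, hv, hRam, hPM, ?_, ?_, ?_, ?_, ?_⟩
  · intro q
    obtain ⟨σ, hσ⟩ := AlgEquiv.restrictNormalHom_surjective (F := LaurentSeries k) (K₁ := L) M
      (i0.symm q)
    refine ⟨σ, ?_⟩
    rw [hρ, hσ, MulEquiv.apply_symm_apply]
  · intro i
    rw [← map_pow, ← map_sub, hw0, hmap]
  · intro σ i
    rw [← hres, hσ0, map_add, map_natCast, hρ]
  · intro i
    rw [hy]
    refine Fin.cases ?_ (fun i => ?_) i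
    · have h1 : ∀ (R : Type u) [Field R] (κ : k →+* R) (T : R) (w : Fin j → R),
        lowx κ ν n T w 0 = T ^ n := fun _ _ _ _ _ => rfl
      rw [h1, h1, map_pow, hmap]
    · have h1 : ∀ (R : Type u) [Field R] (κ : k →+* R) (T : R) (w : Fin j → R),
        lowx κ ν n T w i.succ =
          -(T ^ n * w i + κ (ν i) * T ^ (n + 1) * κ (((n : k) + 1)⁻¹)) := fun _ _ _ _ _ => rfl
      rw [h1, h1]
      simp only [map_neg, map_add, map_mul, map_pow, hmap, RingHom.comp_apply]
  · intro σ hσ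
    apply hc0 M v hv hRam hPM σ
    by_contra hcon
    push Not at hcon
    apply hσ
    rw [hρ]
    have : AlgEquiv.restrictNormalHom L σ = 1 := by
      apply AlgEquiv.ext
      intro a
      apply (algebraMap L M).injective
      rw [hres, hcon]
      rfl
    rw [this, map_one]

/-- the levels of the Artin-Schreier generators -/
theorem low_lev (p : ℕ) [hp : Fact p.Prime] (hp2 : p ≠ 2) (k : Type u) [Field k] [CharP k p]
    [IsAlgClosed k] (j : ℕ) (ν : Fin j → k)
    (hν : ∀ ψ : Fin j → ZMod p, ∑ i, ((ψ i).val : k) * ν i = 0 → ψ = 0)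
    (M : Type u) [Field M] [Algebra (LaurentSeries k) M] [FiniteDimensional (LaurentSeries k) M]
    [IsGalois (LaurentSeries k) M] (v : AddValuation M (WithTop ℤ)) (hv : ∀ x, v x = val k M x)
    (hRam : Ram (κ0 k) v) (hPM : IsPGroup p (M ≃ₐ[LaurentSeries k] M))
    (χ : (M ≃ₐ[LaurentSeries k] M) → Fin j → ZMod p) (hχ : Function.Surjective χ)
    (w : Fin j → M) (y : Fin (j + 1) → M)
    (hw : ∀ i, w i ^ p - w i = algebraMap (LaurentSeries k) M (HahnSeries.single (-1) (ν i)))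
    (hσw : ∀ (σ : M ≃ₐ[LaurentSeries k] M) i, σ (w i) = w i + ((χ σ i).val : M))
    (n : ℕ) (hn : 2 ≤ n) (hpn : ¬ p ∣ n) (hpn1 : ¬ p ∣ n + 1)
    (hy : ∀ i, y i ^ p - y i = lowx ((algebraMap (LaurentSeries k) M).comp (κ0 k)) ν n
      (algebraMap (LaurentSeries k) M (HahnSeries.single (-1) 1)) w i)
    (ψ : Fin (j + 1) → ZMod p) (hψ : (fun i : Fin j => ψ i.succ) ≠ 0) :
    (∀ σ : M ≃ₐ[LaurentSeries k] M, χ σ = 0 → ∑ i, ((ψ i).val : M) * (σ (y i) - y i) ≠ 0 →
      phi (fun σ : M ≃ₐ[LaurentSeries k] M => s v σ) (s v σ) ≤ (n : ℝ) + 1 / (p : ℝ)) ∧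
    ∃ σ : M ≃ₐ[LaurentSeries k] M, ∑ i, ((ψ i).val : M) * (σ (y i) - y i) ≠ 0 ∧
      phi (fun σ : M ≃ₐ[LaurentSeries k] M => s v σ) (s v σ) = (n : ℝ) + 1 / (p : ℝ) := by
  classical
  have hKp : CharP (LaurentSeries k) p := prep_char p k
  have hMp : CharP M p :=
    charP_of_injective_algebraMap (algebraMap (LaurentSeries k) M).injective p
  have hz : ∀ (R : Type u) [Field R] [CharP R p] (a : ZMod p),
      ((a.val : ℕ) : R) = ZMod.castHom (dvd_refl p) R a := fun R _ _ a => by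
    rw [ZMod.castHom_apply, ZMod.natCast_val]
  obtain ⟨κ, hκ⟩ : ∃ κ : k →+* M, κ = (algebraMap (LaurentSeries k) M).comp (κ0 k) := ⟨_, rfl⟩
  have hκ' : ∀ c, algebraMap (LaurentSeries k) M (κ0 k c) = κ c := fun c => by rw [hκ]; rfl
  rw [← hκ] at hy
  obtain ⟨T, hT⟩ : ∃ T : M, T = algebraMap (LaurentSeries k) M (HahnSeries.single (-1) 1) :=
    ⟨_, rfl⟩
  rw [← hT] at hy
  have hsingle : ∀ c : k, algebraMap (LaurentSeries k) M (HahnSeries.single (-1) c) = κ c * T := by
    intro c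
    rw [hT, ← hκ', ← map_mul]
    congr 1
    rw [κ0, HahnSeries.C_apply, HahnSeries.single_mul_single]
    simp
  obtain ⟨Λ, hΛ⟩ : ∃ Λ : k, Λ = ∑ i : Fin j, ((ψ i.succ).val : k) * ν i := ⟨_, rfl⟩
  have hΛ0 : Λ ≠ 0 := by
    intro h
    rw [hΛ] at h
    exact hψ (hν (fun i => ψ i.succ) h)
  have hκΛ : κ Λ ≠ 0 := fun h => hΛ0 (by rwa [map_eq_zero] at h)
  obtain ⟨W, hW⟩ : ∃ W : M, W = ∑ i : Fin j, ((ψ i.succ).val : M) * w i := ⟨_, rfl⟩
  obtain ⟨Y, hY⟩ : ∃ Y : M, Y = ∑ i, ((ψ i).val : M) * y i := ⟨_, rfl⟩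
  have hWp : W ^ p - W = κ Λ * T := by
    rw [hW, fi2_as p (fun i : Fin j => ψ i.succ) w (fun i => κ (ν i) * T)
      (fun i => by rw [hw, hsingle]), hΛ, map_sum, Finset.sum_mul]
    refine Finset.sum_congr rfl fun i _ => ?_
    rw [map_mul, map_natCast, mul_assoc]
  have hYp : Y ^ p - Y = ((ψ 0).val : M) * T ^ n -
      (T ^ n * W + κ Λ * T ^ (n + 1) * κ (((n : k) + 1)⁻¹)) := by
    rw [hY, fi2_as p ψ y _ hy, Fin.sum_univ_succ]
    have h0 : lowx κ ν n T w 0 = T ^ n := rfl
    have h1 : ∀ i : Fin j, lowx κ ν n T w i.succ =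
      -(T ^ n * w i + κ (ν i) * T ^ (n + 1) * κ (((n : k) + 1)⁻¹)) := fun i => rfl
    rw [h0, sub_eq_add_neg]
    congr 1
    have h2 : ∀ i ∈ Finset.univ, ((ψ (Fin.succ i)).val : M) * lowx κ ν n T w i.succ =
        -(T ^ n * (((ψ i.succ).val : M) * w i) +
          κ (((ψ i.succ).val : k) * ν i) * (T ^ (n + 1) * κ (((n : k) + 1)⁻¹))) := by
      intro i _
      rw [h1, map_mul, map_natCast]
      ring
    rw [Finset.sum_congr rfl h2, Finset.sum_neg_distrib, Finset.sum_add_distrib, ← Finset.mul_sum,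
      ← Finset.sum_mul, ← map_sum, ← hΛ, ← hW]
    ring
  have hcop : ∀ a : ZMod p, ((a.val : ℕ) : k) ^ p ^ 1 = ((a.val : ℕ) : k) := by
    intro a
    have h1 := map_natCast (iterateFrobenius k p 1) a.val
    rwa [iterateFrobenius_def] at h1
  have hn1k : ((n : k) + 1) ≠ 0 := by
    intro h
    have h1 : ((n + 1 : ℕ) : k) = 0 := by push_cast; exact h
    exact hpn1 ((CharP.cast_eq_zero_iff k p _).mp h1)
  have hσW : ∀ σ : M ≃ₐ[LaurentSeries k] M, σ W = W + algebraMap (LaurentSeries k) M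
      (κ0 k (((∑ i : Fin j, ψ i.succ * χ σ i : ZMod p).val : ℕ) : k)) := by
    intro σ
    rw [hκ', map_natCast, hz M, hW, map_sum, map_sum, ← Finset.sum_add_distrib]
    refine Finset.sum_congr rfl fun i _ => ?_
    rw [map_mul, map_natCast, hσw, map_mul, ← hz M, ← hz M]
    ring
  obtain ⟨h1, σ, h2, h3, h4⟩ := all_FI2 p hp2 k (LaurentSeries k) M (κ0 k) v hRam hPM 1 le_rfl W
    (HahnSeries.single (-1) Λ)
    (fun σ => (((∑ i : Fin j, ψ i.succ * χ σ i : ZMod p).val : ℕ) : k))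
    (by rw [pow_one, hWp, hsingle])
    (by
      rw [hv]
      have := low_val k M Λ hΛ0 1
      rw [pow_one] at this
      rw [this]
      simp)
    hσW (fun σ => hcop _)
    (by
      intro c hc
      rw [pow_one] at hc
      have h1 : c ∈ (⊥ : Subfield k) := (Subfield.mem_bot_iff_pow_eq_self k p).2 hc
      rw [← ZMod.fieldRange_castHom_eq_bot p] at h1
      obtain ⟨a, ha⟩ := h1
      obtain ⟨i, hi⟩ : ∃ i : Fin j, ψ i.succ ≠ 0 := by
        by_contra hcon
        push Not at hcon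
        exact hψ (funext hcon)
      obtain ⟨σ, hσ⟩ := hχ (Pi.single i (a * (ψ i.succ)⁻¹))
      refine ⟨σ, ?_⟩
      rw [hσ, hz k, Finset.sum_eq_single i]
      · rw [Pi.single_eq_same, mul_comm, mul_assoc, inv_mul_cancel₀ hi, mul_one]
        exact ha
      · intro l _ hl
        rw [Pi.single_eq_of_ne hl, mul_zero]
      · intro h
        exact absurd (Finset.mem_univ i) h)
    n 1 (fun _ => ((ψ 0).val : k) * (Λ ^ n)⁻¹) (fun _ => (Λ ^ n)⁻¹) (fun _ => Y) hn hpn hpn1
    (by
      intro i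
      rw [hYp, pow_one, hWp, hκ', hκ', hκ', map_mul, map_natCast, map_inv₀ κ (Λ ^ n), map_pow,
        mul_pow, mul_pow]
      have hL : κ Λ ^ n ≠ 0 := pow_ne_zero _ hκΛ
      field_simp
      ring)
    (fun _ => 1) (Or.inl (by
      rw [Fin.sum_univ_one, ZMod.val_one, Nat.cast_one, one_mul]
      exact inv_ne_zero (pow_ne_zero _ hΛ0)))
  have hif : (if ∑ i : Fin 1, (((fun _ => 1 : Fin 1 → ZMod p) i).val : k) *
      (fun _ : Fin 1 => (Λ ^ n)⁻¹) i = 0 then (n : ℝ) else (n : ℝ) + 1 / ((p ^ 1 : ℕ) : ℝ)) =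
      (n : ℝ) + 1 / (p : ℝ) := by
    rw [if_neg, pow_one]
    rw [Fin.sum_univ_one, ZMod.val_one, Nat.cast_one, one_mul]
    exact inv_ne_zero (pow_ne_zero _ hΛ0)
  have hYσ : ∀ σ : M ≃ₐ[LaurentSeries k] M,
      ∑ i : Fin 1, (((fun _ => 1 : Fin 1 → ZMod p) i).val : M) * (σ Y - Y) =
      ∑ i, ((ψ i).val : M) * (σ (y i) - y i) := by
    intro σ
    rw [Fin.sum_univ_one, ZMod.val_one, Nat.cast_one, one_mul, hY, map_sum,
      ← Finset.sum_sub_distrib]
    refine Finset.sum_congr rfl fun i _ => ?_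
    rw [map_mul, map_natCast]
    ring
  refine ⟨?_, σ, ?_, ?_⟩
  · intro τ hτ hτ'
    have h5 : τ W = W := by
      rw [hσW, hτ]
      simp
    rw [← hYσ] at hτ'
    have h6 := h1 τ h5 hτ'
    rwa [hif] at h6
  · rw [hYσ] at h3
    exact h3
  · rw [h4]
    exact hif

/-- the lower bound -/
theorem low_cond (p : ℕ) [hp : Fact p.Prime] (hp2 : p ≠ 2) (k : Type u) [Field k] [CharP k p]
    [IsAlgClosed k] (P : Type) [Group P] [Finite P] (hP : IsPGroup p P)
    (hex : ∃ x : P, x ∉ Subgroup.center P ∧ x ^ p = 1) :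
    ∃ n0 : ℕ, ∀ n : ℕ, n0 ≤ n → ¬ p ∣ n → ¬ p ∣ n + 1 →
      (n : ℝ) + 1 / (p : ℝ) ∈ condSet k P := by
  classical
  obtain ⟨j, e, ζ, χ, D⟩ := low_data p hp2 P hP hex
  obtain ⟨β, hβ, hconj⟩ := low_beta p j P e ζ χ D
  have hj : j ≠ 0 := by have := D.jpos; omega
  obtain ⟨ν, c0, hν, hprep⟩ := low_prep p k j hj P hP χ D.add D.surj
  refine ⟨max 2 (⌈c0⌉₊ + 1), ?_⟩
  intro n hn hpn hpn1
  have hn2 : 2 ≤ n := le_trans (le_max_left _ _) hn
  have hc0n : c0 < n := by
    have h1 : ⌈c0⌉₊ + 1 ≤ n := le_trans (le_max_right _ _) hn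
    have h2 : c0 ≤ (⌈c0⌉₊ : ℝ) := Nat.le_ceil c0
    have h3 : ((⌈c0⌉₊ + 1 : ℕ) : ℝ) ≤ (n : ℝ) := by exact_mod_cast h1
    push_cast at h3
    linarith
  obtain ⟨M, hF, hA, hfd, hgal, v, w, y, ρ, hv, hRam, hPM, hρ, hw, hσw, hy, hc0⟩ := hprep n
  have hKp : CharP (LaurentSeries k) p := prep_char p k
  have hMp : CharP M p :=
    charP_of_injective_algebraMap (algebraMap (LaurentSeries k) M).injective p
  have hz : ∀ (a : ZMod p), ((a.val : ℕ) : M) = ZMod.castHom (dvd_refl p) M a := fun a => by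
    rw [ZMod.castHom_apply, ZMod.natCast_val]
  have hχ1 : χ 1 = 0 := by
    have := D.add 1 1
    rw [mul_one] at this
    exact left_eq_add.mp this
  obtain ⟨x, hx⟩ : ∃ x : Fin (j + 1) → M, x = lowx ((algebraMap (LaurentSeries k) M).comp (κ0 k)) ν
      n (algebraMap (LaurentSeries k) M (HahnSeries.single (-1) 1)) w := ⟨_, rfl⟩
  -- the twisted homomorphism
  obtain ⟨b, ρ', hb, hρ'⟩ := tw_hom p (j + 1) P β (fun q => lowA (χ q)) hconj
    (fun q r => by rw [D.add, lowA_mul]) (LaurentSeries k) M ρ x y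
    (fun i => by rw [hy, hx])
    (by
      intro σ i
      rw [lowA_sum (χ (ρ σ)) M (fun l => σ (x l)) i]
      have h := lowx_act p ((algebraMap (LaurentSeries k) M).comp (κ0 k)) ν n
        (algebraMap (LaurentSeries k) M (HahnSeries.single (-1) 1)) w (σ : M →+* M)
        (fun c => σ.commutes _) (σ.commutes _) (χ (ρ σ)) (fun i => hσw σ i) i
      rw [hx]
      have h0 : σ (lowx ((algebraMap (LaurentSeries k) M).comp (κ0 k)) ν n
        (algebraMap (LaurentSeries k) M (HahnSeries.single (-1) 1)) w 0) =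
        lowx ((algebraMap (LaurentSeries k) M).comp (κ0 k)) ν n
        (algebraMap (LaurentSeries k) M (HahnSeries.single (-1) 1)) w 0 := by
        show σ (algebraMap (LaurentSeries k) M (HahnSeries.single (-1) 1) ^ n) =
          algebraMap (LaurentSeries k) M (HahnSeries.single (-1) 1) ^ n
        rw [map_pow, σ.commutes]
      rw [h0]
      exact h)
  have hbσ : ∀ σ : M ≃ₐ[LaurentSeries k] M, ρ σ = 1 → ∀ i, ((b σ i).val : M) = σ (y i) - y i := by
    intro σ hσ i
    rw [hb σ i]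
    rw [lowA_sum (χ (ρ σ)) M (fun l => σ (y l)) i, hσ, hχ1]
    have h0 : (lowc (0 : Fin j → ZMod p)) i = 0 := by
      refine Fin.cases ?_ (fun i => ?_) i
      · rfl
      · simp [lowc]
    rw [h0, ZMod.val_zero, Nat.cast_zero, zero_mul, add_zero]
  have hcoord : ∀ (ψ : Fin (j + 1) → ZMod p) (σ : M ≃ₐ[LaurentSeries k] M), ρ σ = 1 →
      (∑ i, ((ψ i).val : M) * (σ (y i) - y i) ≠ 0 ↔ ∑ i, ψ i * b σ i ≠ 0) := by
    intro ψ σ hσ
    have h1 : ∑ i, ((ψ i).val : M) * (σ (y i) - y i) =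
        ZMod.castHom (dvd_refl p) M (∑ i, ψ i * b σ i) := by
      rw [map_sum]
      refine Finset.sum_congr rfl fun i _ => ?_
      rw [map_mul, ← hbσ σ hσ i, hz, hz]
    rw [h1, Ne, Ne, map_eq_zero_iff _ (RingHom.injective _)]
  have hker : ∀ σ : M ≃ₐ[LaurentSeries k] M,
      c0 < phi (fun σ : M ≃ₐ[LaurentSeries k] M => s v σ) (s v σ) → ρ σ = 1 := by
    intro σ h
    by_contra hne
    exact absurd (hc0 σ hne) (not_le.mpr h)
  have hpr : (0 : ℝ) < 1 / (p : ℝ) := by
    have : (0 : ℝ) < p := by exact_mod_cast hp.out.pos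
    positivity
  -- the levels
  have hlev := fun ψ hψ => low_lev p hp2 k j ν hν M v hv hRam hPM (fun σ => χ (ρ σ))
    (D.surj.comp hρ) w y hw hσw n hn2 hpn hpn1 hy ψ hψ
  have hasc := all_ASC p k (LaurentSeries k) M (κ0 k) v hRam hPM
    ((HahnSeries.single (-1) 1) ^ n) 0 (y 0) n (by omega) hpn
    (by rw [hy, map_pow]; rfl)
    (by
      have hp0 : p ≠ 0 := hp.out.ne_zero
      rw [zero_pow hp0, sub_zero, sub_zero, hv]
      exact low_val k M 1 one_ne_zero n)
  have hmain := tw_lev p (j + 1) P β hβ (M ≃ₐ[LaurentSeries k] M) (fun σ => s v σ) ρ ρ' b hρ hρ' c0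
    ((n : ℝ) + 1 / (p : ℝ)) hc0 (by linarith)
    (by
      intro ψ hψ
      by_cases hψ' : (fun i : Fin j => ψ i.succ) = 0
      · have hψ0 : ψ 0 ≠ 0 := by
          intro h
          apply hψ
          funext i
          refine Fin.cases h (fun i => ?_) i
          exact congrFun hψ' i
        obtain ⟨σ, h1, h2⟩ := hasc.2
        have h3 : c0 < phi (fun σ : M ≃ₐ[LaurentSeries k] M => s v σ) (s v σ) := by
          rw [h2]; exact hc0n
        refine ⟨σ, ?_, h3⟩
        rw [← hcoord ψ σ (hker σ h3), Fin.sum_univ_succ]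
        have h4 : ∑ i : Fin j, ((ψ i.succ).val : M) * (σ (y i.succ) - y i.succ) = 0 := by
          refine Finset.sum_eq_zero fun i _ => ?_
          have h5 : ψ i.succ = 0 := congrFun hψ' i
          rw [h5, ZMod.val_zero, Nat.cast_zero, zero_mul]
        rw [h4, add_zero]
        refine mul_ne_zero ?_ (sub_ne_zero.mpr h1)
        rw [hz, Ne, map_eq_zero_iff _ (RingHom.injective _)]
        exact hψ0
      · obtain ⟨σ, h1, h2⟩ := (hlev ψ hψ').2
        have h3 : c0 < phi (fun σ : M ≃ₐ[LaurentSeries k] M => s v σ) (s v σ) := by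
          rw [h2]; linarith
        exact ⟨σ, (hcoord ψ σ (hker σ h3)).mp h1, h3⟩)
    (by
      intro σ hσ hbne
      obtain ⟨i, hi⟩ : ∃ i, b σ i ≠ 0 := by
        by_contra hcon
        push Not at hcon
        exact hbne (funext hcon)
      revert hi
      refine Fin.cases ?_ (fun i => ?_) i
      · intro hi
        have h1 : σ (y 0) ≠ y 0 := by
          intro h
          apply hi
          have h2 := hbσ σ hσ 0
          rw [h, sub_self, hz, map_eq_zero_iff _ (RingHom.injective _)] at h2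
          exact h2
        have h2 := hasc.1 σ h1
        linarith
      · intro hi
        have hne : (fun l : Fin j => (Pi.single (Fin.succ i) 1 : Fin (j + 1) → ZMod p) l.succ) ≠
            0 := by
          intro h
          have := congrFun h i
          simp at this
        refine (hlev (Pi.single (Fin.succ i) 1) hne).1 σ ?_ ?_
        · show χ (ρ σ) = 0
          rw [hσ, hχ1]
        · rw [hcoord _ σ hσ]
          simpa [Pi.single_apply] using hi)
    (by
      have i0 : Fin j := ⟨0, by omega⟩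
      have hne : (fun l : Fin j => (Pi.single (Fin.succ i0) 1 : Fin (j + 1) → ZMod p) l.succ) ≠
          0 := by
        intro h
        have := congrFun h i0
        simp at this
      obtain ⟨σ, h1, h2⟩ := (hlev (Pi.single (Fin.succ i0) 1) hne).2
      have h3 : c0 < phi (fun σ : M ≃ₐ[LaurentSeries k] M => s v σ) (s v σ) := by
        rw [h2]; linarith
      refine ⟨σ, ?_, h3, h2⟩
      intro hb0
      have h4 := (hcoord _ σ (hker σ h3)).mp h1
      apply h4
      rw [hb0]
      simp)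
  exact all_QUO p k M v hv hRam hPM P ρ' hmain.1 _ hmain.2.1 hmain.2.2

/-- `p` divides `N_P` if `P` has a noncentral element of order `p`, `p` odd -/
theorem low_dvd (p : ℕ) [hp : Fact p.Prime] (hp2 : p ≠ 2) (k : Type u) [Field k] [CharP k p]
    [IsAlgClosed k] (P : Type) [Group P] [Finite P] (hP : IsPGroup p P)
    (hex : ∃ x : P, x ∉ Subgroup.center P ∧ x ^ p = 1) : p ∣ NP k P := by
  have hnt : Nontrivial P := by
    obtain ⟨x, hx, _⟩ := hex
    exact ⟨x, 1, fun h => hx (by rw [h]; exact Subgroup.one_mem _)⟩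
  obtain ⟨hM, hM2⟩ := all_UB p k P hP hnt
  obtain ⟨n0, hn0⟩ := low_cond p hp2 k P hP hex
  have h3 : 3 ≤ p := by
    have h2 := hp.out.two_le
    omega
  refine all_NPL k P p hp.out.pos ⟨MP p P, hM, ?_⟩ ?_
  · have h1 : {c | c ∈ condSet k P ∧ ¬ ∃ z : ℤ, ((MP p P : ℕ) : ℝ) * c = (z : ℝ)} = ∅ := by
      ext c
      simp only [Set.mem_ofPred_eq, Set.mem_empty_iff_false, iff_false]
      rintro ⟨hc, hne⟩
      obtain ⟨z, _, _, _, hz⟩ := hM2 c hc
      exact hne hz
    rw [h1]
    exact Set.finite_empty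
  · intro m
    refine ⟨p * (max m n0 + 1) + 1, ?_, hn0 _ ?_ ?_ ?_⟩
    · have h1 : max m n0 + 1 ≤ p * (max m n0 + 1) := Nat.le_mul_of_pos_left _ hp.out.pos
      have h2 := le_max_left m n0
      omega
    · have h1 : max m n0 + 1 ≤ p * (max m n0 + 1) := Nat.le_mul_of_pos_left _ hp.out.pos
      have h2 := le_max_right m n0
      omega
    · intro h
      have h1 := (Nat.dvd_add_right (Dvd.intro _ rfl : p ∣ p * (max m n0 + 1))).mp h
      have := Nat.le_of_dvd one_pos h1
      omega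
    · intro h
      have h1 : p ∣ 2 := (Nat.dvd_add_right (Dvd.intro _ rfl : p ∣ p * (max m n0 + 1))).mp
        (by rw [add_assoc] at h; exact h)
      have := Nat.le_of_dvd two_pos h1
      omega

end Pool.Agent.Helper26.DNL
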