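import Mathlib

/-!
MP_b6a655_nt: group theory for the lower bound: in a finite `p`-group, `p` odd, with a noncentral
element of order `p` there is one in the second centre.
-/

set_option autoImplicit false

namespace Pool.Agent.Helper26.DNL

theorem low_pow {G : Type} [Group G] (a b c : G) (hc : c ∈ Subgroup.center G)
    (h : b * a = c * a * b) (n : ℕ) : (a * b) ^ n = c ^ (n.choose 2) * a ^ n * b ^ n := by
  have hcc : ∀ (m : ℕ) (g : G), g * c ^ m = c ^ m * g := fun m g =>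
    Subgroup.mem_center_iff.mp (Subgroup.pow_mem _ hc m) g
  have h1 : ∀ m : ℕ, b ^ m * a = c ^ m * a * b ^ m := by
    intro m
    induction m with
    | zero => simp
    | succ m ih =>
      rw [pow_succ, mul_assoc, h]
      calc b ^ m * (c * a * b) = b ^ m * c ^ 1 * a * b := by rw [pow_one]; group
        _ = c ^ 1 * (b ^ m * a) * b := by rw [hcc]; group
        _ = c ^ 1 * (c ^ m * a * b ^ m) * b := by rw [ih]
        _ = c ^ (m + 1) * a * (b ^ m * b) := by rw [pow_one, pow_succ' c m]; group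
  induction n with
  | zero => simp
  | succ n ih =>
    rw [pow_succ, ih, Nat.choose_succ_succ' n 1, Nat.choose_one_right]
    calc c ^ n.choose 2 * a ^ n * b ^ n * (a * b) = c ^ n.choose 2 * a ^ n * (b ^ n * a) * b := by
          simp only [mul_assoc]
      _ = c ^ n.choose 2 * a ^ n * (c ^ n * a * b ^ n) * b := by rw [h1]
      _ = c ^ n.choose 2 * (a ^ n * c ^ n) * a * b ^ n * b := by simp only [mul_assoc]
      _ = c ^ n.choose 2 * (c ^ n * a ^ n) * a * b ^ n * b := by rw [hcc]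
      _ = c ^ n.choose 2 * c ^ n * (a ^ n * a) * (b ^ n * b) := by simp only [mul_assoc]
      _ = c ^ (n + n.choose 2) * a ^ (n + 1) * b ^ (n + 1) := by
          rw [← pow_add, add_comm, pow_succ a, pow_succ b]

/-- a noncentral element of order `p` in the second centre -/
theorem low_ex (p : ℕ) [hp : Fact p.Prime] (hp2 : p ≠ 2) (P : Type) [Group P] [Finite P]
    (hP : IsPGroup p P) (hex : ∃ x : P, x ∉ Subgroup.center P ∧ x ^ p = 1) :
    ∃ e : P, e ∉ Subgroup.center P ∧ e ^ p = 1 ∧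
      ∀ l : P, l * e * l⁻¹ * e⁻¹ ∈ Subgroup.center P := by
  classical
  have hnil : Group.IsNilpotent P := hP.isNilpotent
  obtain ⟨N, hN⟩ := Subgroup.nilpotent_iff_lowerCentralSeries.mp hnil
  have hexi : ∃ i, ∀ x ∈ (⊤ : Subgroup P).lowerCentralSeries i, x ^ p = 1 → x ∈ Subgroup.center P := by
    refine ⟨N, fun x hx _ => ?_⟩
    rw [hN, Subgroup.mem_bot] at hx
    rw [hx]; exact Subgroup.one_mem _
  have hi0 := Nat.find_spec hexi
  have hpos : Nat.find hexi ≠ 0 := by
    intro h0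
    rw [h0] at hi0
    obtain ⟨x, hx1, hx2⟩ := hex
    exact hx1 (hi0 x (by rw [Subgroup.lowerCentralSeries_zero]; trivial) hx2)
  obtain ⟨i, hi⟩ := Nat.exists_eq_succ_of_ne_zero hpos
  have hlt : i < Nat.find hexi := by rw [hi]; exact Nat.lt_succ_self i
  have hnot := Nat.find_min hexi hlt
  push Not at hnot
  obtain ⟨x, hxi, hxp, hxc⟩ := hnot
  rw [hi] at hi0
  -- commutators with `x`
  have hcomm : ∀ l : P, x * l * x⁻¹ * l⁻¹ ∈ (⊤ : Subgroup P).lowerCentralSeries (i + 1) := fun l => by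
    have := Subgroup.commutator_mem_commutator hxi (Subgroup.mem_top l)
    exact this
  have hcomm2 : ∀ (j : ℕ) (l : P), l ∈ (⊤ : Subgroup P).lowerCentralSeries j →
      x * l * x⁻¹ * l⁻¹ ∈ (⊤ : Subgroup P).lowerCentralSeries (j + 1) := by
    intro j l hl
    have h1 : l * x * l⁻¹ * x⁻¹ ∈ (⊤ : Subgroup P).lowerCentralSeries (j + 1) :=
      Subgroup.commutator_mem_commutator hl (Subgroup.mem_top x)
    have h2 := Subgroup.inv_mem _ h1
    have h3 : (l * x * l⁻¹ * x⁻¹)⁻¹ = x * l * x⁻¹ * l⁻¹ := by group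
    rwa [h3] at h2
  have hdvd : p ∣ p.choose 2 := by
    apply hp.out.dvd_choose_self (by norm_num)
    have := hp.out.two_le
    omega
  have key : ∀ n j : ℕ, N ≤ j + n → ∀ l ∈ (⊤ : Subgroup P).lowerCentralSeries j,
      (x * l * x⁻¹ * l⁻¹) ^ p = 1 := by
    intro n
    induction n with
    | zero =>
      intro j hj l hl
      have h1 : l ∈ (⊤ : Subgroup P).lowerCentralSeries N := Subgroup.lowerCentralSeries_antitone _ hj hl
      rw [hN, Subgroup.mem_bot] at h1
      rw [h1]; simp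
    | succ n ih =>
      intro j hj l hl
      obtain ⟨c, hc⟩ : ∃ c, c = x * l * x⁻¹ * l⁻¹ := ⟨_, rfl⟩
      have hcS : c ∈ (⊤ : Subgroup P).lowerCentralSeries (j + 1) := by rw [hc]; exact hcomm2 j l hl
      have h1 := ih (j + 1) (by omega) c hcS
      have hz : x * c * x⁻¹ * c⁻¹ ∈ Subgroup.center P := hi0 _ (hcomm c) h1
      obtain ⟨z, hzdef⟩ : ∃ z, z = x * c * x⁻¹ * c⁻¹ := ⟨_, rfl⟩
      rw [← hzdef] at h1 hz
      have hrel : c * x⁻¹ = z * x⁻¹ * c := by
        have h2 : z * x⁻¹ = x⁻¹ * z := (Subgroup.mem_center_iff.mp hz x⁻¹).symm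
        rw [h2, hzdef]; group
      have h3 := low_pow x⁻¹ c z hz hrel p
      have h4 : (x⁻¹ * c) ^ p = 1 := by
        have h5 : x⁻¹ * c = l * x⁻¹ * l⁻¹ := by rw [hc]; group
        rw [h5, conj_pow, inv_pow, hxp]
        group
      obtain ⟨m, hm⟩ := hdvd
      rw [h4, hm, pow_mul, h1, one_pow, one_mul, inv_pow, hxp, inv_one, one_mul] at h3
      rw [← hc]
      exact h3.symm
  refine ⟨x, hxc, hxp, fun l => ?_⟩
  have h1 := key N 0 (by omega) l (by rw [Subgroup.lowerCentralSeries_zero]; trivial)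
  have h2 := hi0 _ (hcomm l) h1
  have h3 := Subgroup.inv_mem _ h2
  have h4 : (x * l * x⁻¹ * l⁻¹)⁻¹ = l * x * l⁻¹ * x⁻¹ := by group
  rwa [h4] at h3

/-- the data for the twist -/
structure LowD (p j : ℕ) (P : Type) [Group P] (e : P)
    (ζ : Multiplicative (Fin j → ZMod p) →* P) (χ : P → Fin j → ZMod p) : Prop where
  ep : e ^ p = 1
  jpos : 1 ≤ j
  inj : Function.Injective ζ
  cen : ∀ u, ζ u ∈ Subgroup.center P
  add : ∀ x y, χ (x * y) = χ x + χ y
  surj : Function.Surjective χ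
  conj : ∀ x, x * e * x⁻¹ = ζ (Multiplicative.ofAdd (χ x)) * e
  ne : e ∉ Subgroup.center P

theorem low_vec0 (p : ℕ) [Fact p.Prime] (A : Type) [AddCommGroup A] [Finite A]
    [Module (ZMod p) A] : ∃ j : ℕ, Nonempty (A ≃+ (Fin j → ZMod p)) := by
  have b : Module.Basis (Fin (Module.finrank (ZMod p) A)) (ZMod p) A := Module.finBasis (ZMod p) A
  exact ⟨Module.finrank (ZMod p) A, ⟨b.equivFun.toAddEquiv⟩⟩

theorem low_vec (p : ℕ) [Fact p.Prime] (A : Type) [AddCommGroup A] [Finite A]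
    (h : ∀ x : A, p • x = 0) : ∃ j : ℕ, Nonempty (A ≃+ (Fin j → ZMod p)) := by
  let _ : Module (ZMod p) A := AddCommGroup.zmodModule h
  exact low_vec0 p A

theorem low_data (p : ℕ) [hp : Fact p.Prime] (hp2 : p ≠ 2) (P : Type) [Group P] [Finite P]
    (hP : IsPGroup p P) (hex : ∃ x : P, x ∉ Subgroup.center P ∧ x ^ p = 1) :
    ∃ (j : ℕ) (e : P) (ζ : Multiplicative (Fin j → ZMod p) →* P) (χ : P → Fin j → ZMod p),
      LowD p j P e ζ χ := by
  classical
  obtain ⟨e, hec, hep, hel⟩ := low_ex p hp2 P hP hex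
  let δ : P →* P := MonoidHom.mk' (fun l => l * e * l⁻¹ * e⁻¹) (by
    intro l m
    have h1 := Subgroup.mem_center_iff.mp (hel m) l
    have h2 : l * (m * e * m⁻¹ * e⁻¹) * (e * l⁻¹ * e⁻¹) =
        (m * e * m⁻¹ * e⁻¹) * l * (e * l⁻¹ * e⁻¹) := by rw [h1]
    have h3 := Subgroup.mem_center_iff.mp (hel m) (l * e * l⁻¹ * e⁻¹)
    calc l * m * e * (l * m)⁻¹ * e⁻¹ = l * (m * e * m⁻¹ * e⁻¹) * (e * l⁻¹ * e⁻¹) := by group
      _ = (m * e * m⁻¹ * e⁻¹) * l * (e * l⁻¹ * e⁻¹) := h2
      _ = (m * e * m⁻¹ * e⁻¹) * (l * e * l⁻¹ * e⁻¹) := by group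
      _ = (l * e * l⁻¹ * e⁻¹) * (m * e * m⁻¹ * e⁻¹) := h3.symm)
  have hδ : ∀ l, δ l = l * e * l⁻¹ * e⁻¹ := fun l => rfl
  have hδc : ∀ l, δ l ∈ Subgroup.center P := fun l => hel l
  have hδp : ∀ l, δ l ^ p = 1 := by
    intro l
    have h1 : (l * e * l⁻¹) ^ p = 1 := by rw [conj_pow, hep]; group
    have h2 : l * e * l⁻¹ = δ l * e := by rw [hδ]; group
    have h3 : Commute (δ l) e := (Subgroup.mem_center_iff.mp (hδc l) e).symm
    rw [h2, h3.mul_pow, hep, mul_one] at h1
    exact h1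
  have hDc : ∀ a ∈ δ.range, a ∈ Subgroup.center P := by
    rintro a ⟨l, rfl⟩; exact hδc l
  let _ : CommGroup δ.range := { (inferInstance : Group δ.range) with
    mul_comm := fun a b => Subtype.ext ((Subgroup.mem_center_iff.mp (hDc b b.2) a)) }
  have hpx : ∀ x : Additive δ.range, p • x = 0 := by
    intro x
    obtain ⟨l, hl⟩ := (Additive.toMul x).2
    have h1 : (Additive.toMul x) ^ p = 1 := Subtype.ext (by
      rw [SubmonoidClass.coe_pow, ← hl, hδp]; rfl)
    exact h1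
  have hfin : Finite (Additive δ.range) := inferInstanceAs (Finite δ.range)
  obtain ⟨j, ⟨φ⟩⟩ := low_vec p (Additive δ.range) hpx
  let χ : P → Fin j → ZMod p :=
    fun x => φ (Additive.ofMul ⟨δ x, x, rfl⟩)
  let ζ : Multiplicative (Fin j → ZMod p) →* P :=
    MonoidHom.mk' (fun u => ((Additive.toMul (φ.symm (Multiplicative.toAdd u)) : δ.range) : P)) (by
      intro a b
      rw [toAdd_mul, map_add]
      rfl)
  have hζχ : ∀ x, ζ (Multiplicative.ofAdd (χ x)) = δ x := by
    intro x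
    show ((Additive.toMul (φ.symm (φ (Additive.ofMul ⟨δ x, x, rfl⟩))) : δ.range) : P) = δ x
    rw [AddEquiv.symm_apply_apply]
    rfl
  have hadd : ∀ x y, χ (x * y) = χ x + χ y := by
    intro x y
    show φ _ = φ _ + φ _
    rw [← map_add]
    congr 1
    apply congrArg Additive.ofMul
    exact Subtype.ext (map_mul δ x y)
  refine ⟨j, e, ζ, χ, hep, ?_, ?_, ?_, hadd, ?_, ?_, hec⟩
  · by_contra h0
    apply hec
    rw [Subgroup.mem_center_iff]
    intro g
    have h2 : χ g = χ 1 := by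
      funext i
      exact absurd i.2 (by omega)
    have h3 : δ g = δ 1 := by rw [← hζχ, h2, hζχ]
    rw [map_one, hδ] at h3
    have h4 : g * e * g⁻¹ * e⁻¹ * (e * g) = e * g := by rw [h3, one_mul]
    calc g * e = g * e * g⁻¹ * e⁻¹ * (e * g) := by group
      _ = e * g := h4
  · intro a b hab
    have h1 : Additive.toMul (φ.symm (Multiplicative.toAdd a)) =
        Additive.toMul (φ.symm (Multiplicative.toAdd b)) := Subtype.ext hab
    exact φ.symm.injective h1
  · intro u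
    exact hDc _ (Additive.toMul (φ.symm (Multiplicative.toAdd u))).2
  · intro u
    obtain ⟨l, hl⟩ := (Additive.toMul (φ.symm u)).2
    refine ⟨l, ?_⟩
    show φ (Additive.ofMul ⟨δ l, l, rfl⟩) = u
    have h1 : (⟨δ l, l, rfl⟩ : δ.range) = Additive.toMul (φ.symm u) := Subtype.ext hl
    rw [h1]
    exact φ.apply_symm_apply u
  · intro x
    rw [hζχ, hδ]
    group

end Pool.Agent.Helper26.DNL
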