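import Pool.Agent.Helper67.DN.FI3

/-!
MP_b6a655_nt: general twisting lemmas: twisting a homomorphism `ρ : Gal(M/K) → P` by Artin-Schreier
roots of a vector `x` with values in an elementary abelian normal subgroup of `P`.
-/

set_option autoImplicit false

namespace Pool.Agent.Helper26.DNL

open Pool.Agent.Helper21.DN

universe u

/-- the general twisted homomorphism -/
theorem tw_hom (p : ℕ) [Fact p.Prime] (d : ℕ) (P : Type) [Group P]
    (β : Multiplicative (Fin d → ZMod p) →* P) (A : P → Matrix (Fin d) (Fin d) (ZMod p))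
    (hconj : ∀ (x : P) (u : Fin d → ZMod p), x * β (Multiplicative.ofAdd u) * x⁻¹ =
      β (Multiplicative.ofAdd ((A x).mulVec u)))
    (hmulA : ∀ x y, A (x * y) = A x * A y)
    (K M : Type u) [Field K] [CharP K p] [Field M] [Algebra K M] (ρ : (M ≃ₐ[K] M) →* P)
    (x y : Fin d → M) (hy : ∀ i, y i ^ p - y i = x i)
    (hx : ∀ (σ : M ≃ₐ[K] M) i, ∑ j, ((A (ρ σ) i j).val : M) * σ (x j) = x i) :
    ∃ (b : (M ≃ₐ[K] M) → Fin d → ZMod p) (ρ' : (M ≃ₐ[K] M) →* P),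
      (∀ σ i, ((b σ i).val : M) = ∑ j, ((A (ρ σ) i j).val : M) * σ (y j) - y i) ∧
      ∀ σ, ρ' σ = β (Multiplicative.ofAdd (b σ)) * ρ σ := by
  have hMp : CharP M p := charP_of_injective_algebraMap (algebraMap K M).injective p
  set cM : ZMod p →+* M := ZMod.castHom (dvd_refl p) M with hcM
  have c1 : ∀ a : ZMod p, ((a.val : ℕ) : M) = cM a := fun a => by
    rw [hcM, ZMod.castHom_apply, ZMod.natCast_val]
  have c3 : ∀ (σ : M ≃ₐ[K] M) (a : ZMod p), σ (cM a) = cM a := fun σ a => by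
    rw [← c1, map_natCast]
  have c4 : ∀ a : ZMod p, cM a ^ p = cM a := fun a => by
    rw [← map_pow, ZMod.pow_card]
  have c5 : ∀ x : M, x ^ p = x → ∃ a : ZMod p, cM a = x := fun x hx => by
    have h1 : x ∈ (⊥ : Subfield M) := (Subfield.mem_bot_iff_pow_eq_self M p).2 hx
    rw [← ZMod.fieldRange_castHom_eq_bot p] at h1
    obtain ⟨a, ha⟩ := h1
    exact ⟨a, ha⟩
  set B : (M ≃ₐ[K] M) → Fin d → M := fun σ i => ∑ j, cM (A (ρ σ) i j) * σ (y j) - y i with hB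
  have hsx : ∀ (σ : M ≃ₐ[K] M) i, σ (y i) ^ p - σ (y i) = σ (x i) := by
    intro σ i
    rw [← hy i, map_sub, map_pow]
  have hBp : ∀ σ i, B σ i ^ p = B σ i := by
    intro σ i
    rw [← sub_eq_zero]
    have h1 : B σ i ^ p = ∑ j, cM (A (ρ σ) i j) * σ (y j) ^ p - y i ^ p := by
      rw [hB]
      simp only
      rw [sub_pow_char, sum_pow_char]
      congr 1
      refine Finset.sum_congr rfl fun j _ => ?_
      rw [mul_pow, c4]
    have h2 : B σ i ^ p - B σ i =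
        ∑ j, cM (A (ρ σ) i j) * (σ (y j) ^ p - σ (y j)) - (y i ^ p - y i) := by
      rw [h1, hB]
      simp only [mul_sub, Finset.sum_sub_distrib]
      ring
    rw [h2, hy, ← hx σ i]
    rw [sub_eq_zero]
    refine Finset.sum_congr rfl fun j _ => ?_
    rw [hsx, c1]
  have hb : ∀ σ i, ∃ a : ZMod p, cM a = B σ i := fun σ i => c5 _ (hBp σ i)
  choose b hb using hb
  have hcoc : ∀ σ τ, b (σ * τ) = b σ + (A (ρ σ)).mulVec (b τ) := by
    intro σ τ
    funext i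
    apply cM.injective
    rw [Pi.add_apply, map_add, hb, hb]
    have h1 : cM ((A (ρ σ)).mulVec (b τ) i) = ∑ l, cM (A (ρ σ) i l) * B τ l := by
      rw [Matrix.mulVec, dotProduct, map_sum]
      refine Finset.sum_congr rfl fun l _ => ?_
      rw [map_mul, hb]
    have h2 : ∀ l, B τ l = ∑ j, cM (A (ρ τ) l j) * σ (τ (y j)) - σ (y l) := by
      intro l
      have h3 : σ (B τ l) = B τ l := by rw [← hb, c3]
      rw [← h3, hB]
      simp only
      rw [map_sub, map_sum]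
      congr 1
      refine Finset.sum_congr rfl fun j _ => ?_
      rw [map_mul, c3]
    have h4 : B (σ * τ) i = ∑ j, (∑ l, cM (A (ρ σ) i l) * cM (A (ρ τ) l j)) * σ (τ (y j)) - y i := by
      rw [hB]
      simp only
      congr 1
      refine Finset.sum_congr rfl fun j _ => ?_
      rw [map_mul, hmulA, Matrix.mul_apply, map_sum]
      simp only [map_mul]
      rfl
    have h5 : ∑ l, cM (A (ρ σ) i l) * B τ l =
        ∑ j, (∑ l, cM (A (ρ σ) i l) * cM (A (ρ τ) l j)) * σ (τ (y j)) -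
          ∑ l, cM (A (ρ σ) i l) * σ (y l) := by
      have h6 : ∀ l, cM (A (ρ σ) i l) * B τ l =
          ∑ j, cM (A (ρ σ) i l) * cM (A (ρ τ) l j) * σ (τ (y j)) -
            cM (A (ρ σ) i l) * σ (y l) := by
        intro l
        rw [h2, mul_sub, Finset.mul_sum]
        congr 1
        refine Finset.sum_congr rfl fun j _ => ?_
        ring
      rw [Finset.sum_congr rfl fun l _ => h6 l, Finset.sum_sub_distrib, Finset.sum_comm]
      congr 1
      refine Finset.sum_congr rfl fun j _ => ?_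
      rw [Finset.sum_mul]
    rw [h1, h4, h5]
    have h7 : B σ i = ∑ l, cM (A (ρ σ) i l) * σ (y l) - y i := rfl
    rw [h7]
    ring
  have hmul : ∀ σ τ : M ≃ₐ[K] M, β (Multiplicative.ofAdd (b (σ * τ))) * ρ (σ * τ) =
      (β (Multiplicative.ofAdd (b σ)) * ρ σ) * (β (Multiplicative.ofAdd (b τ)) * ρ τ) := by
    intro σ τ
    rw [hcoc, ofAdd_add, map_mul, ← hconj, map_mul]
    group
  refine ⟨b, MonoidHom.mk' (fun σ => β (Multiplicative.ofAdd (b σ)) * ρ σ) hmul, ?_, fun σ => rfl⟩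
  intro σ i
  rw [c1, hb, hB]
  simp only
  congr 1
  refine Finset.sum_congr rfl fun j _ => ?_
  rw [c1]

/-- the twisted homomorphism is onto, and its largest break -/
theorem tw_lev (p : ℕ) [Fact p.Prime] (d : ℕ) (P : Type) [Group P]
    (β : Multiplicative (Fin d → ZMod p) →* P) (hβ : Function.Injective β)
    (G : Type u) [Group G] [Fintype G] (s : G → ℕ) (ρ ρ' : G →* P) (b : G → Fin d → ZMod p)
    (hρ : Function.Surjective ρ) (hρ' : ∀ σ, ρ' σ = β (Multiplicative.ofAdd (b σ)) * ρ σ)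
    (c0 C : ℝ) (hbig : ∀ σ, ρ σ ≠ 1 → phi s (s σ) ≤ c0) (hC0 : c0 ≤ C)
    (hψ : ∀ ψ : Fin d → ZMod p, ψ ≠ 0 → ∃ σ, ∑ i, ψ i * b σ i ≠ 0 ∧ c0 < phi s (s σ))
    (hle : ∀ σ, ρ σ = 1 → b σ ≠ 0 → phi s (s σ) ≤ C)
    (hex : ∃ σ, b σ ≠ 0 ∧ c0 < phi s (s σ) ∧ phi s (s σ) = C) :
    Function.Surjective ρ' ∧ (∀ σ, ρ' σ ≠ 1 → phi s (s σ) ≤ C) ∧
      ∃ σ, ρ' σ ≠ 1 ∧ phi s (s σ) = C := by
  -- additivity on the kernel
  have hadd : ∀ σ τ : G, ρ σ = 1 → ρ τ = 1 → b (σ * τ) = b σ + b τ := by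
    intro σ τ h1 h2
    have e1 := hρ' (σ * τ)
    rw [map_mul, map_mul, h1, h2, hρ', hρ' τ, h1, h2, mul_one, mul_one, mul_one, mul_one,
      ← map_mul] at e1
    have e2 := hβ e1
    rw [← ofAdd_add] at e2
    exact (Multiplicative.ofAdd.injective e2).symm
  have hb1 : b 1 = 0 := by
    have := hadd 1 1 (map_one ρ) (map_one ρ)
    rw [mul_one] at this
    exact left_eq_add.mp this
  have hinv : ∀ σ : G, ρ σ = 1 → b σ⁻¹ = - b σ := by
    intro σ h1
    have h2 : ρ σ⁻¹ = 1 := by rw [map_inv, h1, inv_one]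
    have := hadd σ⁻¹ σ h2 h1
    rw [inv_mul_cancel, hb1] at this
    exact eq_neg_of_add_eq_zero_left this.symm
  obtain ⟨W, hWdef⟩ : ∃ W : AddSubgroup (Fin d → ZMod p), ∀ x, x ∈ W ↔ ∃ σ, ρ σ = 1 ∧ b σ = x :=
    ⟨{ carrier := {x | ∃ σ, ρ σ = 1 ∧ b σ = x}
       zero_mem' := ⟨1, map_one ρ, hb1⟩
       add_mem' := by
        rintro x y ⟨σ, h1, rfl⟩ ⟨τ, h2, rfl⟩
        exact ⟨σ * τ, by rw [map_mul, h1, h2, mul_one], hadd σ τ h1 h2⟩
       neg_mem' := by
        rintro x ⟨σ, h1, rfl⟩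
        exact ⟨σ⁻¹, by rw [map_inv, h1, inv_one], hinv σ h1⟩ }, fun x => Iff.rfl⟩
  have hker : ∀ σ, c0 < phi s (s σ) → ρ σ = 1 := by
    intro σ h
    by_contra hne
    exact absurd (hbig σ hne) (not_le.mpr h)
  have hWtop : W = ⊤ := by
    apply fi3_span
    intro ψ hψ0
    obtain ⟨σ, h2, h3⟩ := hψ ψ hψ0
    exact ⟨b σ, (hWdef _).mpr ⟨σ, hker σ h3, rfl⟩, h2⟩
  have hall : ∀ u : Fin d → ZMod p, ∃ σ, ρ σ = 1 ∧ b σ = u := by
    intro u
    apply (hWdef u).mp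
    rw [hWtop]
    trivial
  refine ⟨?_, ?_, ?_⟩
  · intro x
    obtain ⟨τ, hτ⟩ := hρ x
    obtain ⟨σ, hσ1, hσb⟩ := hall (- b τ)
    refine ⟨σ * τ, ?_⟩
    rw [map_mul, hρ' σ, hρ' τ, hσ1, hσb, hτ, mul_one, ← mul_assoc, ← map_mul, ← ofAdd_add,
      neg_add_cancel, ofAdd_zero, map_one, one_mul]
  · intro σ hσ
    by_cases h1 : ρ σ = 1
    · apply hle σ h1
      intro hb
      apply hσ
      rw [hρ', hb, h1, ofAdd_zero, map_one, one_mul]
    · exact le_trans (hbig σ h1) hC0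
  · obtain ⟨σ, h1, h2, h3⟩ := hex
    refine ⟨σ, ?_, h3⟩
    rw [hρ', hker σ h2, mul_one]
    intro h
    have h4 : Multiplicative.ofAdd (b σ) = 1 := by
      apply hβ
      rw [h, map_one]
    exact h1 (by simpa using congrArg Multiplicative.toAdd h4)

end Pool.Agent.Helper26.DNL
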