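import Pool.Agent.Helper21.DN.All
import Pool.Agent.Helper26.DNL.Grp
import Pool.Agent.Helper26.DNL.Tw

/-!
MP_b6a655_nt: the fields for the lower bound.
-/

set_option autoImplicit false

namespace Pool.Agent.Helper26.DNL

open Pool.Agent.Helper21.DN

universe u

/-- trace-dual bases of `F_q` in `k` -/
theorem low_fq (p : ℕ) [Fact p.Prime] (k : Type u) [Field k] [CharP k p] [IsAlgClosed k]
    (g : ℕ) (hg : g ≠ 0) : ∃ μ ν : Fin g → k, (∀ i, μ i ^ p ^ g = μ i) ∧
      (∀ i, ν i ^ p ^ g = ν i) ∧
      (∀ ψ : Fin g → ZMod p, ∑ i, ((ψ i).val : k) * ν i = 0 → ψ = 0) ∧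
      (∀ c : k, c ^ p ^ g = c → ∃ a : Fin g → ZMod p, c = ∑ i, ((a i).val : k) * μ i) ∧
      (∀ i j, ∑ l ∈ Finset.range g, (ν i * μ j) ^ p ^ l = if i = j then 1 else 0) := by
  classical
  let _ : Algebra (ZMod p) k := ZMod.algebra k p
  let f : GaloisField p g →ₐ[ZMod p] k := IsAlgClosed.lift
  have finj : Function.Injective f := RingHom.injective (f : GaloisField p g →+* k)
  have hfr := GaloisField.finrank p hg
  let b : Module.Basis (Fin g) (ZMod p) (GaloisField p g) :=
    Module.finBasisOfFinrankEq (ZMod p) (GaloisField p g) hfr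
  let b' : Module.Basis (Fin g) (ZMod p) (GaloisField p g) := b.traceDual
  let _ : Fintype (GaloisField p g) := Fintype.ofFinite _
  have hcard : Fintype.card (GaloisField p g) = p ^ g := by
    rw [← Nat.card_eq_fintype_card, GaloisField.card p g hg]
  have hsum : ∀ (c : Fin g → GaloisField p g) (ψ : Fin g → ZMod p),
      ∑ i, ((ψ i).val : k) * f (c i) = f (∑ i, ψ i • c i) := by
    intro c ψ
    rw [map_sum]
    refine Finset.sum_congr rfl (fun i _ => ?_)
    rw [map_smul, Algebra.smul_def]
    congr 1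
    rw [← map_natCast (algebraMap (ZMod p) k), ZMod.natCast_zmod_val]
  have hpow : ∀ x : GaloisField p g, f x ^ p ^ g = f x := by
    intro x
    rw [← map_pow, ← hcard, FiniteField.pow_card]
  refine ⟨fun i => f (b i), fun i => f (b' i), fun i => hpow _, fun i => hpow _, ?_, ?_, ?_⟩
  · intro ψ hψ
    have hψ' : ∑ i, ((ψ i).val : k) * f (b' i) = 0 := hψ
    rw [hsum (fun i => b' i)] at hψ'
    have h0 : ∑ i, ψ i • b' i = 0 := finj (by rw [hψ', map_zero])
    have := (Fintype.linearIndependent_iff.1 b'.linearIndependent) ψ h0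
    funext i
    exact this i
  · intro c hc
    have hlt : 1 < p ^ g := Nat.one_lt_pow hg (Fact.out : p.Prime).one_lt
    have hne : (Polynomial.X ^ p ^ g - Polynomial.X : Polynomial k) ≠ 0 :=
      FiniteField.X_pow_card_sub_X_ne_zero k hlt
    have hroot : ∀ x : k, x ^ p ^ g = x →
        x ∈ (Polynomial.X ^ p ^ g - Polynomial.X : Polynomial k).roots.toFinset := by
      intro x hx
      rw [Multiset.mem_toFinset, Polynomial.mem_roots hne]
      simp [Polynomial.IsRoot, hx]
    have himg : Finset.univ.image f =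
        (Polynomial.X ^ p ^ g - Polynomial.X : Polynomial k).roots.toFinset := by
      apply Finset.eq_of_subset_of_card_le
      · intro x hx
        rw [Finset.mem_image] at hx
        obtain ⟨y, _, rfl⟩ := hx
        exact hroot _ (hpow y)
      · rw [Finset.card_image_of_injective _ finj, Finset.card_univ, hcard]
        refine (Multiset.toFinset_card_le _).trans ((Polynomial.card_roots' _).trans ?_)
        rw [FiniteField.X_pow_card_sub_X_natDegree_eq k hlt]
    have h1 := hroot c hc
    rw [← himg, Finset.mem_image] at h1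
    obtain ⟨y, _, hy⟩ := h1
    refine ⟨fun i => b.repr y i, ?_⟩
    rw [hsum (fun i => b i), b.sum_repr, hy]
  · intro i j
    have h1 := FiniteField.algebraMap_trace_eq_sum_pow (ZMod p) (GaloisField p g) (b' i * b j)
    have h2 : Algebra.trace (ZMod p) (GaloisField p g) (b' i * b j) = if j = i then 1 else 0 :=
      Module.Basis.trace_traceDual_mul b i j
    rw [h2, hfr, Nat.card_zmod] at h1
    have h3 := congrArg f h1
    rw [map_sum] at h3
    have h4 : ∑ l ∈ Finset.range g, (f (b' i) * f (b j)) ^ p ^ l =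
        ∑ l ∈ Finset.range g, f ((b' i * b j) ^ p ^ l) := by
      refine Finset.sum_congr rfl fun l _ => ?_
      rw [map_pow, map_mul]
    show ∑ l ∈ Finset.range g, (f (b' i) * f (b j)) ^ p ^ l = _
    rw [h4, ← h3]
    by_cases hij : i = j
    · rw [if_pos hij.symm, if_pos hij, map_one, map_one]
    · rw [if_neg (fun h => hij h.symm), if_neg hij, map_zero, map_zero]

/-- the character vector -/
def lowc {p j : ℕ} (u : Fin j → ZMod p) : Fin (j + 1) → ZMod p := Fin.cons 0 u

/-- the matrices -/
def lowA {p j : ℕ} (u : Fin j → ZMod p) : Matrix (Fin (j + 1)) (Fin (j + 1)) (ZMod p) :=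
  fun i l => (if i = l then 1 else 0) + (if l = 0 then lowc u i else 0)

theorem lowA_sum {p j : ℕ} [Fact p.Prime] (u : Fin j → ZMod p) (M : Type u) [Field M] [CharP M p]
    (f : Fin (j + 1) → M) (i : Fin (j + 1)) :
    ∑ l, ((lowA u i l).val : M) * f l = f i + ((lowc u i).val : M) * f 0 := by
  have h1 : ∀ a : ZMod p, ((a.val : ℕ) : M) = ZMod.castHom (dvd_refl p) M a := fun a => by
    rw [ZMod.castHom_apply, ZMod.natCast_val]
  have h2 : ∀ l, ((lowA u i l).val : M) * f l =
      (if i = l then f l else 0) + (if l = 0 then ((lowc u i).val : M) * f l else 0) := by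
    intro l
    rw [h1, h1, lowA, map_add]
    split_ifs <;> simp [add_mul]
  rw [Finset.sum_congr rfl fun l _ => h2 l, Finset.sum_add_distrib, Finset.sum_ite_eq,
    Finset.sum_ite_eq']
  simp

theorem lowA_mulVec {p j : ℕ} [Fact p.Prime] (u : Fin j → ZMod p) (f : Fin (j + 1) → ZMod p) :
    (lowA u).mulVec f = f + fun i => lowc u i * f 0 := by
  funext i
  have h2 : ∀ l, lowA u i l * f l =
      (if i = l then f l else 0) + (if l = 0 then lowc u i * f l else 0) := by
    intro l
    rw [lowA]
    split_ifs <;> simp [add_mul]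
  rw [Matrix.mulVec, dotProduct, Finset.sum_congr rfl fun l _ => h2 l, Finset.sum_add_distrib,
    Finset.sum_ite_eq, Finset.sum_ite_eq']
  simp

theorem lowc_add {p j : ℕ} (u v : Fin j → ZMod p) (i : Fin (j + 1)) :
    lowc (u + v) i = lowc u i + lowc v i := by
  refine Fin.cases ?_ (fun i => ?_) i
  · simp [lowc]
  · simp [lowc]

theorem lowA_mul {p j : ℕ} [Fact p.Prime] (u v : Fin j → ZMod p) :
    lowA (u + v) = lowA u * lowA v := by
  have key : ∀ f : Fin (j + 1) → ZMod p, (lowA (u + v)).mulVec f = (lowA u * lowA v).mulVec f := by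
    intro f
    rw [← Matrix.mulVec_mulVec, lowA_mulVec, lowA_mulVec, lowA_mulVec]
    funext i
    simp only [Pi.add_apply]
    have h0 : lowc v 0 = 0 := rfl
    rw [lowc_add, h0]
    ring
  exact Matrix.mulVec_injective (funext key)

/-- the `P`-extension with the generators `w_i` -/
theorem low_L (p : ℕ) [Fact p.Prime] (k : Type u) [Field k] [CharP k p] [IsAlgClosed k] (j : ℕ)
    (hj : j ≠ 0) (P : Type) [Group P] [Finite P] (hP : IsPGroup p P) (χ : P → Fin j → ZMod p)
    (hadd : ∀ x y, χ (x * y) = χ x + χ y) (hsurj : Function.Surjective χ) :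
    ∃ (ν : Fin j → k) (L : Type u) (_ : Field L) (_ : Algebra (LaurentSeries k) L)
      (w : Fin j → L) (_ : FiniteDimensional (LaurentSeries k) L)
      (_ : IsGalois (LaurentSeries k) L) (i : (L ≃ₐ[LaurentSeries k] L) ≃* P),
      (∀ ψ : Fin j → ZMod p, ∑ i, ((ψ i).val : k) * ν i = 0 → ψ = 0) ∧
      (∀ l, w l ^ p - w l = algebraMap (LaurentSeries k) L (HahnSeries.single (-1) (ν l))) ∧
      ∀ (σ : L ≃ₐ[LaurentSeries k] L) l, σ (w l) = w l + ((χ (i σ) l).val : L) := by
  obtain ⟨μ, ν, hμ, hν, hν0, hμs, hdual⟩ := low_fq p k j hj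
  have hz : ∀ (R : Type u) [Field R] [CharP R p] (a : ZMod p),
      ((a.val : ℕ) : R) = ZMod.castHom (dvd_refl p) R a := fun R _ _ a => by
    rw [ZMod.castHom_apply, ZMod.natCast_val]
  have hfrob : ∀ (R : Type u) [Field R] [CharP R p] (m n : ℕ), ((n : R)) ^ p ^ m = n := by
    intro R _ _ m n
    have h1 := map_natCast (iterateFrobenius R p m) n
    rwa [iterateFrobenius_def] at h1
  obtain ⟨L, _, _, w0, _, _, i0, hw0, hσ0⟩ := all_L2 p k j (Nat.one_le_iff_ne_zero.mpr hj) P hP
    (fun x => ∑ i, ((χ x i).val : k) * μ i)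
    (by
      intro x y
      rw [← Finset.sum_add_distrib]
      refine Finset.sum_congr rfl fun i _ => ?_
      rw [hadd, hz, hz, hz, Pi.add_apply, map_add]
      ring)
    (by
      intro x
      rw [← iterateFrobenius_def, map_sum]
      refine Finset.sum_congr rfl fun i _ => ?_
      rw [iterateFrobenius_def, mul_pow, hfrob, hμ])
    (by
      intro c hc
      obtain ⟨a, ha⟩ := hμs c hc
      obtain ⟨x, hx⟩ := hsurj a
      exact ⟨x, by rw [hx, ha]⟩)
  have hLp : CharP L p := by
    have h1 : CharP (LaurentSeries k) p := prep_char p k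
    exact charP_of_injective_algebraMap (algebraMap (LaurentSeries k) L).injective p
  obtain ⟨κ, hκ⟩ : ∃ κ : k →+* L, ∀ c, κ c = algebraMap (LaurentSeries k) L (κ0 k c) :=
    ⟨(algebraMap (LaurentSeries k) L).comp (κ0 k), fun c => rfl⟩
  refine ⟨ν, L, inferInstance, inferInstance,
    fun l => ∑ m ∈ Finset.range j, (κ (ν l) * w0) ^ p ^ m, inferInstance, inferInstance, i0, hν0,
    ?_, ?_⟩
  · intro l
    simp only
    rw [← frobenius_def, map_sum]
    have h1 : ∀ m ∈ Finset.range j, frobenius L p ((κ (ν l) * w0) ^ p ^ m) =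
        (κ (ν l) * w0) ^ p ^ (m + 1) := by
      intro m _
      rw [frobenius_def, ← pow_mul, pow_succ]
    rw [Finset.sum_congr rfl h1, ← Finset.sum_sub_distrib,
      Finset.sum_range_sub (fun m => (κ (ν l) * w0) ^ p ^ m), pow_zero, pow_one, mul_pow,
      ← map_pow, hν, ← mul_sub, hw0, hκ, ← map_mul]
    congr 1
    rw [κ0, HahnSeries.C_apply, HahnSeries.single_mul_single]
    simp
  · intro σ l
    simp only
    rw [map_sum]
    have h1 : ∀ m ∈ Finset.range j, σ ((κ (ν l) * w0) ^ p ^ m) =
        (κ (ν l) * w0) ^ p ^ m +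
          κ ((ν l * ∑ i, ((χ (i0 σ) i).val : k) * μ i) ^ p ^ m) := by
      intro m _
      have h2 : σ (κ (ν l)) = κ (ν l) := by rw [hκ]; exact σ.commutes _
      rw [map_pow, map_mul, h2, hσ0, ← hκ, mul_add, ← iterateFrobenius_def, map_add,
        iterateFrobenius_def, iterateFrobenius_def, ← map_mul, ← map_pow]
    rw [Finset.sum_congr rfl h1, Finset.sum_add_distrib, ← map_sum]
    congr 1
    have h3 : ∑ m ∈ Finset.range j, (ν l * ∑ i, ((χ (i0 σ) i).val : k) * μ i) ^ p ^ m =
        ((χ (i0 σ) l).val : k) := by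
      have h4 : ∀ m ∈ Finset.range j, (ν l * ∑ i, ((χ (i0 σ) i).val : k) * μ i) ^ p ^ m =
          ∑ i, ((χ (i0 σ) i).val : k) * (ν l * μ i) ^ p ^ m := by
        intro m _
        rw [Finset.mul_sum, ← iterateFrobenius_def, map_sum]
        refine Finset.sum_congr rfl fun i _ => ?_
        rw [iterateFrobenius_def]
        have h5 : ν l * (((χ (i0 σ) i).val : k) * μ i) = ((χ (i0 σ) i).val : k) * (ν l * μ i) := by
          ring
        rw [h5, mul_pow, hfrob]
      rw [Finset.sum_congr rfl h4, Finset.sum_comm]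
      have h6 : ∀ i ∈ Finset.univ, ∑ m ∈ Finset.range j,
          ((χ (i0 σ) i).val : k) * (ν l * μ i) ^ p ^ m =
          if l = i then ((χ (i0 σ) i).val : k) else 0 := by
        intro i _
        rw [← Finset.mul_sum, hdual]
        split_ifs <;> simp
      rw [Finset.sum_congr rfl h6, Finset.sum_ite_eq]
      simp
    rw [h3, map_natCast]

end Pool.Agent.Helper26.DNL
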